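import Pool.Agent.N594.NT.Stm3
import Pool.Agent.N901.NT.DF

/-!
# NT/XDF: few edges inside the parts, exact version (helper252, after NT/DF of helper901)
-/

set_option autoImplicit false

open Finset
open scoped Classical

namespace Pool.Agent.N252.NT.XDF

open Pool.Agent.TH200.LP Pool.Agent.N594.NT
open Pool.Agent.N901.NT.DF (av_inst Adm eini card_le_fib ein_le)

/-- the indicator of a missing edge through two vertices in different parts -/
noncomputable def T (d : ℕ) {V κ ι : Type} (H : Finset V → Prop) (π : V → κ)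
    (p : Finset ι × ι × ι) (ω : ι → V) : ℝ :=
  ind (Adm d p) * (ind (π (ω p.2.1) ≠ π (ω p.2.2)) *
    ind (Function.Injective ω ∧ ¬ H (p.1.image ω)))

lemma T_nonneg (d : ℕ) {V κ ι : Type} (H : Finset V → Prop) (π : V → κ)
    (p : Finset ι × ι × ι) (ω : ι → V) : 0 ≤ T d H π p ω :=
  mul_nonneg (ind_nonneg _) (mul_nonneg (ind_nonneg _) (ind_nonneg _))

lemma T_one (d : ℕ) {V κ ι : Type} (H : Finset V → Prop) (π : V → κ)
    (p : Finset ι × ι × ι) (ω : ι → V) (h1 : Adm d p) (h2 : π (ω p.2.1) ≠ π (ω p.2.2))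
    (h3 : Function.Injective ω) (h4 : ¬ H (p.1.image ω)) : T d H π p ω = 1 := by
  unfold T
  rw [ind_true h1, ind_true h2, ind_true ⟨h3, h4⟩]
  norm_num

lemma mdg_nonneg (d : ℕ) {V : Type} [Fintype V] (H : Finset V → Prop) (x y : V) :
    0 ≤ mdg d H x y := av_nonneg fun _ => ind_nonneg _

lemma lsi_nonneg (d : ℕ) {V κ : Type} [Fintype V] (H : Finset V → Prop)
    (π : V → κ) : 0 ≤ lsi d H π := by
  unfold lsi
  refine av_nonneg fun x => ?_
  unfold rsi
  exact av_nonneg fun y => mul_nonneg (ind_nonneg _) (mdg_nonneg d H x y)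

lemma av_T (hQ0 : S_Q0) (d : ℕ) {V κ ι : Type} [Fintype V] [Nonempty V] [Fintype ι]
    (H : Finset V → Prop) (π : V → κ) (p : Finset ι × ι × ι) :
    (av fun ω : ι → V => T d H π p ω) ≤ lsi d H π := by
  by_cases h : Adm d p
  · have h1 := hQ0 d V H ι p.1 p.2.1 p.2.2 (fun x y => ind (π x ≠ π y)) (fun _ _ => ind_nonneg _)
      h.2.1 h.2.2.1 h.2.2.2 h.1
    have h2 : ∀ ω : ι → V, T d H π p ω =
        ind (π (ω p.2.1) ≠ π (ω p.2.2)) * ind (Function.Injective ω ∧ ¬ H (p.1.image ω)) := by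
      intro ω
      unfold T
      rw [ind_true h, one_mul]
    simp only [h2]
    exact h1
  · have h2 : ∀ ω : ι → V, T d H π p ω = 0 := by
      intro ω
      unfold T
      rw [ind_false h, zero_mul]
    simp only [h2]
    rw [av_const]
    exact lsi_nonneg d H π

lemma av_sum_T (hQ0 : S_Q0) (d : ℕ) {V κ ι : Type} [Fintype V] [Nonempty V] [Fintype ι]
    (H : Finset V → Prop) (π : V → κ) :
    (av fun ω : ι → V => ∑ p : Finset ι × ι × ι, T d H π p ω) ≤
      (Fintype.card (Finset ι × ι × ι) : ℝ) * lsi d H π := by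
  rw [av_sum]
  refine (sum_le_sum fun p _ => av_T hQ0 d H π p).trans (le_of_eq ?_)
  rw [sum_const, card_univ, nsmul_eq_mul]

/-- the number of coincidences -/
noncomputable def Rc {V β : Type} [Fintype β] (B : β → V) : ℝ :=
  ∑ p : β × β, ind (p.1 ≠ p.2 ∧ B p.1 = B p.2)

lemma Rc_nonneg {V β : Type} [Fintype β] (B : β → V) : 0 ≤ Rc B :=
  sum_nonneg fun _ _ => ind_nonneg _

lemma Rc_one {V β : Type} [Fintype β] (B : β → V) (h : ¬ Function.Injective B) : 1 ≤ Rc B := by
  unfold Function.Injective at h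
  push Not at h
  obtain ⟨b, b', h1, h2⟩ := h
  have h3 := single_le_sum (f := fun p : β × β => ind (p.1 ≠ p.2 ∧ B p.1 = B p.2))
    (fun p _ => ind_nonneg _) (mem_univ (b, b'))
  have h4 : ind ((b, b').1 ≠ (b, b').2 ∧ B (b, b').1 = B (b, b').2) = 1 := ind_true ⟨h2, h1⟩
  simp only [] at h3
  rw [← h4]
  exact h3

lemma av_Rc {V β : Type} [Fintype V] [Nonempty V] [Fintype β] :
    (av fun B : β → V => Rc B) ≤ ((Fintype.card β : ℝ) * Fintype.card β) / Fintype.card V := by
  have hV : (0 : ℝ) < Fintype.card V := by exact_mod_cast Fintype.card_pos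
  unfold Rc
  rw [av_sum]
  have h2 : ∀ p : β × β, (av fun B : β → V => ind (p.1 ≠ p.2 ∧ B p.1 = B p.2)) ≤
      1 / (Fintype.card V : ℝ) := by
    intro p
    by_cases hp : p.1 ≠ p.2
    · have h3 : ∀ B : β → V, ind (p.1 ≠ p.2 ∧ B p.1 = B p.2) = ind (B p.1 = B p.2) :=
        fun B => ind_congr ⟨fun h => h.2, fun h => ⟨hp, h⟩⟩
      simp only [h3]
      have h6 := pair_pull (V := V) hp (fun x y : V => ind (x = y))
      have h4 : ∀ x : V, (av fun y : V => ind (x = y)) = 1 / (Fintype.card V : ℝ) := by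
        intro x
        unfold av
        congr 1
        rw [Finset.sum_eq_single x]
        · exact ind_true rfl
        · intro y _ hy
          exact ind_false fun h => hy h.symm
        · intro h
          exact absurd (mem_univ x) h
      simp only [h4] at h6
      rw [av_const] at h6
      rw [av_inst _ _ _] at h6
      exact le_of_eq h6
    · have h3 : ∀ B : β → V, ind (p.1 ≠ p.2 ∧ B p.1 = B p.2) = 0 := fun B => ind_false fun h => hp h.1
      simp only [h3, av_const]
      positivity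
  refine (sum_le_sum fun p _ => h2 p).trans (le_of_eq ?_)
  rw [sum_const, card_univ, Fintype.card_prod, nsmul_eq_mul]
  push_cast
  ring

lemma pt {d k : ℕ} {V β : Type} [Fintype β] (H : Finset V → Prop) (hU : Un d H)
    (π : V → Fin k) (i : Fin k) (q : β → Fin k) (hq : ∀ b, q b ≠ i)
    (hc : Fintype.card (Fin (d + 2) ⊕ β) = k * (d + 1) + 1)
    (hfib : ∀ J : Finset β, J.card = d + 2 → ∃ b ∈ J, ∃ b' ∈ J, q b ≠ q b')
    (hF : FrI d k H) (A : Fin (d + 2) → V) (B : β → V) :
    ind (H (univ.image A) ∧ ∀ a, π (A a) = i) * ind (∀ b, π (B b) = q b) ≤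
      (∑ p : Finset (Fin (d + 2) ⊕ β) × (Fin (d + 2) ⊕ β) × (Fin (d + 2) ⊕ β),
        T d H π p (Sum.elim A B)) +
      ind (H (univ.image A) ∧ ∀ a, π (A a) = i) * (∑ p : Finset β × β × β, T d H π p B) +
      ind (H (univ.image A) ∧ ∀ a, π (A a) = i) * Rc B := by
  have n1 : 0 ≤ ∑ p : Finset (Fin (d + 2) ⊕ β) × (Fin (d + 2) ⊕ β) × (Fin (d + 2) ⊕ β),
        T d H π p (Sum.elim A B) := sum_nonneg fun p _ => T_nonneg d H π p _
  have n2 : 0 ≤ ∑ p : Finset β × β × β, T d H π p B := sum_nonneg fun p _ => T_nonneg d H π p _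
  have n3 : 0 ≤ Rc B := Rc_nonneg B
  by_cases h1 : H (univ.image A) ∧ ∀ a, π (A a) = i
  swap
  · rw [ind_false h1, zero_mul, zero_mul, zero_mul, add_zero, add_zero]
    exact n1
  by_cases h2 : ∀ b, π (B b) = q b
  swap
  · rw [ind_false h2, mul_zero]
    exact add_nonneg (add_nonneg n1 (mul_nonneg (ind_nonneg _) n2)) (mul_nonneg (ind_nonneg _) n3)
  rw [ind_true h1, ind_true h2, one_mul, one_mul, one_mul]
  by_cases hB : Function.Injective B
  swap
  · have := Rc_one B hB
    linarith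
  have hA : Function.Injective A := by
    have h := hU _ h1.1
    have h' : (univ.image A).card = (univ : Finset (Fin (d + 2))).card := by
      rw [h, card_univ, Fintype.card_fin]
    have h'' := Finset.card_image_iff.1 h'
    rw [Finset.coe_univ] at h''
    exact Set.injOn_univ.1 h''
  have hAB : Function.Injective (Sum.elim A B) := by
    refine Function.Injective.sumElim hA hB fun a b h => ?_
    refine hq b ?_
    rw [← h2 b, ← h]
    exact h1.2 a
  let e : Fin (d + 2) ⊕ β ≃ Fin (k * (d + 1) + 1) := Fintype.equivFinOfCardEq hc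
  obtain ⟨J, hJ, hJ2⟩ := hF (fun x => Sum.elim A B (e.symm x)) (hAB.comp e.symm.injective)
  let J2 : Finset (Fin (d + 2) ⊕ β) := J.map e.symm.toEmbedding
  have hJ2c : J2.card = d + 2 := by rw [card_map]; exact hJ
  have hJ2i : J2.image (Sum.elim A B) = J.image (fun x => Sum.elim A B (e.symm x)) := by
    ext v
    simp only [J2, mem_image, mem_map, Equiv.coe_toEmbedding]
    constructor
    · rintro ⟨s, ⟨x, hx, rfl⟩, rfl⟩
      exact ⟨x, hx, rfl⟩
    · rintro ⟨x, hx, rfl⟩
      exact ⟨e.symm x, ⟨x, hx, rfl⟩, rfl⟩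
  rw [← hJ2i] at hJ2
  clear_value J2
  by_cases ha : ∃ a, (Sum.inl a : Fin (d + 2) ⊕ β) ∈ J2
  · obtain ⟨a, ha⟩ := ha
    by_cases hb : ∃ b, (Sum.inr b : Fin (d + 2) ⊕ β) ∈ J2
    · obtain ⟨b, hb⟩ := hb
      have h3 : T d H π (J2, (Sum.inl a : Fin (d + 2) ⊕ β), (Sum.inr b : Fin (d + 2) ⊕ β))
          (Sum.elim A B) = 1 := by
        refine T_one d H π _ _ ⟨hJ2c, ha, hb, fun h => Sum.inl_ne_inr h⟩ ?_ hAB hJ2
        simp only [Sum.elim_inl, Sum.elim_inr]
        rw [h1.2 a, h2 b]
        exact (hq b).symm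
      have h4 := single_le_sum
        (f := fun p : Finset (Fin (d + 2) ⊕ β) × (Fin (d + 2) ⊕ β) × (Fin (d + 2) ⊕ β) =>
          T d H π p (Sum.elim A B)) (fun p _ => T_nonneg d H π p _)
        (mem_univ (J2, (Sum.inl a : Fin (d + 2) ⊕ β), (Sum.inr b : Fin (d + 2) ⊕ β)))
      simp only [h3] at h4
      linarith
    · exfalso
      apply hJ2
      have h5 : J2 = univ.map ⟨(Sum.inl : Fin (d + 2) → Fin (d + 2) ⊕ β), Sum.inl_injective⟩ := by
        apply eq_of_subset_of_card_le
        · intro s hs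
          rcases s with s | s
          · exact mem_map.2 ⟨s, mem_univ _, rfl⟩
          · exact absurd ⟨s, hs⟩ hb
        · rw [card_map, hJ2c, card_univ, Fintype.card_fin]
      have h6 : J2.image (Sum.elim A B) = univ.image A := by
        rw [h5]
        ext v
        simp only [mem_image, mem_map, mem_univ, true_and, Function.Embedding.coeFn_mk]
        constructor
        · rintro ⟨s, ⟨x, rfl⟩, rfl⟩
          exact ⟨x, rfl⟩
        · rintro ⟨x, rfl⟩
          exact ⟨Sum.inl x, ⟨x, rfl⟩, rfl⟩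
      rw [h6]
      exact h1.1
  · have ha' : ∀ a, (Sum.inl a : Fin (d + 2) ⊕ β) ∉ J2 := fun a h => ha ⟨a, h⟩
    let J3 : Finset β := univ.filter fun b => (Sum.inr b : Fin (d + 2) ⊕ β) ∈ J2
    have h5 : J2 = J3.map ⟨(Sum.inr : β → Fin (d + 2) ⊕ β), Sum.inr_injective⟩ := by
      ext s
      rcases s with s | s
      · constructor
        · intro h
          exact absurd h (ha' s)
        · intro h
          obtain ⟨x, _, hx⟩ := mem_map.1 h
          exact absurd hx (by simp)
      · constructor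
        · intro h
          exact mem_map.2 ⟨s, mem_filter.2 ⟨mem_univ _, h⟩, rfl⟩
        · intro h
          obtain ⟨x, hx, hx2⟩ := mem_map.1 h
          have : x = s := Sum.inr_injective hx2
          rw [← this]
          exact (mem_filter.1 hx).2
    have h6 : J3.card = d + 2 := by
      rw [h5, card_map] at hJ2c
      exact hJ2c
    have h7 : J2.image (Sum.elim A B) = J3.image B := by
      rw [h5]
      ext v
      simp only [mem_image, mem_map, Function.Embedding.coeFn_mk]
      constructor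
      · rintro ⟨s, ⟨x, hx, rfl⟩, rfl⟩
        exact ⟨x, hx, rfl⟩
      · rintro ⟨x, hx, rfl⟩
        exact ⟨Sum.inr x, ⟨x, hx, rfl⟩, rfl⟩
    rw [h7] at hJ2
    obtain ⟨b, hb, b', hb', hbb⟩ := hfib J3 h6
    have h3 : T d H π (J3, b, b') B = 1 := by
      refine T_one d H π _ _ ⟨h6, hb, hb', fun h => hbb (congrArg q h)⟩ ?_ hB hJ2
      show π (B b) ≠ π (B b')
      rw [h2 b, h2 b']
      exact hbb
    have h4 := single_le_sum (f := fun p : Finset β × β × β => T d H π p B)
      (fun p _ => T_nonneg d H π p _) (mem_univ (J3, b, b'))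
    simp only [h3] at h4
    linarith

lemma step (hQ0 : S_Q0) {d k : ℕ} {V β : Type} [Fintype V] [Nonempty V] [Fintype β]
    (H : Finset V → Prop) (hU : Un d H)
    (π : V → Fin k) (i : Fin k) (q : β → Fin k) (hq : ∀ b, q b ≠ i)
    (hc : Fintype.card (Fin (d + 2) ⊕ β) = k * (d + 1) + 1)
    (hfib : ∀ J : Finset β, J.card = d + 2 → ∃ b ∈ J, ∃ b' ∈ J, q b ≠ q b')
    (hF : FrI d k H) :
    eini d H π i * ∏ b, (av fun v : V => ind (π v = q b)) ≤
      (Fintype.card (Finset (Fin (d + 2) ⊕ β) × (Fin (d + 2) ⊕ β) × (Fin (d + 2) ⊕ β)) : ℝ) *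
        lsi d H π +
      eini d H π i * ((Fintype.card (Finset β × β × β) : ℝ) * lsi d H π) +
      eini d H π i * (((Fintype.card β : ℝ) * Fintype.card β) / Fintype.card V) := by
  have e0 : 0 ≤ eini d H π i := av_nonneg fun _ => ind_nonneg _
  have h1 : eini d H π i * ∏ b, (av fun v : V => ind (π v = q b)) =
      av fun A : Fin (d + 2) → V => av fun B : β → V =>
        ind (H (univ.image A) ∧ ∀ a, π (A a) = i) * ind (∀ b, π (B b) = q b) := by
    simp only [av_mul_left]
    rw [av_mul_right]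
    congr 1
    simp only [ind_forall_gen]
    rw [av_prod_gen (fun b v => ind (π v = q b))]
  have h2 : (av fun A : Fin (d + 2) → V => av fun B : β → V =>
      ind (H (univ.image A) ∧ ∀ a, π (A a) = i) * ∑ p : Finset β × β × β, T d H π p B) ≤
      eini d H π i * ((Fintype.card (Finset β × β × β) : ℝ) * lsi d H π) := by
    simp only [av_mul_left]
    rw [av_mul_right]
    exact mul_le_mul_of_nonneg_left (av_sum_T hQ0 d H π) e0
  have h5 : (av fun A : Fin (d + 2) → V => av fun B : β → V =>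
      ind (H (univ.image A) ∧ ∀ a, π (A a) = i) * Rc B) ≤
      eini d H π i * (((Fintype.card β : ℝ) * Fintype.card β) / Fintype.card V) := by
    simp only [av_mul_left]
    rw [av_mul_right]
    exact mul_le_mul_of_nonneg_left av_Rc e0
  have h3 : (av fun A : Fin (d + 2) → V => av fun B : β → V =>
      ∑ p : Finset (Fin (d + 2) ⊕ β) × (Fin (d + 2) ⊕ β) × (Fin (d + 2) ⊕ β),
        T d H π p (Sum.elim A B)) ≤
      (Fintype.card (Finset (Fin (d + 2) ⊕ β) × (Fin (d + 2) ⊕ β) × (Fin (d + 2) ⊕ β)) : ℝ) *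
        lsi d H π := by
    have h4 := av_sum_T hQ0 d (ι := Fin (d + 2) ⊕ β) H π
    rw [av_inst _ (@Pi.instFintype (Fin (d + 2) ⊕ β) (fun _ => V) instDecidableEqSum _ _) _,
      av_sumType] at h4
    exact h4
  rw [h1]
  refine le_trans (av_mono fun A => av_mono fun B => pt H hU π i q hq hc hfib hF A B) ?_
  simp only [av_add]
  exact add_le_add (add_le_add h3 h2) h5

theorem main (hQ0 : S_Q0) : S_XDF := by
  intro d k hd hk
  obtain ⟨K, rfl⟩ : ∃ K, k = K + 1 := ⟨k - 1, by omega⟩
  set m : ℕ := (K + 1) * (d + 1) + 1 with hm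
  set n : ℕ := K * (d + 1) with hn
  have hk0 : (0 : ℝ) < ((K + 1 : ℕ) : ℝ) := by positivity
  have hm0 : (0 : ℝ) < (m : ℝ) := by
    have : 0 < m := by omega
    exact_mod_cast this
  set N : ℝ := 2 ^ m * ((m : ℝ) * m) with hN
  have hN0 : 0 < N := by positivity
  set u : ℝ := (1 / (2 * ((K + 1 : ℕ) : ℝ))) ^ n with hu
  have hu0 : 0 < u := by positivity
  obtain ⟨N1, hN1'⟩ := exists_nat_ge (4 * ((n : ℝ) * n) / u)
  refine ⟨u / (4 * ((K + 1 : ℕ) : ℝ) * N), by positivity, N1, ?_⟩
  intro V _ _ H π hcard hF hπ hU hls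
  have hls0 := lsi_nonneg d H π
  have hV : (0 : ℝ) < Fintype.card V := by exact_mod_cast Fintype.card_pos
  have hV2 : ((n : ℝ) * n) / Fintype.card V ≤ u / 4 := by
    have h : (N1 : ℝ) ≤ Fintype.card V := by exact_mod_cast hcard
    have h' : 4 * ((n : ℝ) * n) / u ≤ Fintype.card V := hN1'.trans h
    rw [div_le_iff₀ hu0] at h'
    rw [div_le_iff₀ hV]
    linarith
  have key : ∀ i, u / 2 * eini d H π i ≤ N * lsi d H π := by
    intro i
    have e0 : 0 ≤ eini d H π i := av_nonneg fun _ => ind_nonneg _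
    have hcs : Fintype.card {j : Fin (K + 1) // j ≠ i} = K := by
      rw [Fintype.card_subtype_compl, Fintype.card_fin, Fintype.card_unique]
      omega
    have hcβ : Fintype.card ({j : Fin (K + 1) // j ≠ i} × Fin (d + 1)) = n := by
      rw [Fintype.card_prod, hcs, Fintype.card_fin]
    have hcι : Fintype.card (Fin (d + 2) ⊕ ({j : Fin (K + 1) // j ≠ i} × Fin (d + 1))) = m := by
      rw [Fintype.card_sum, hcβ, Fintype.card_fin, hm, hn]
      ring
    have h := step hQ0 (β := {j : Fin (K + 1) // j ≠ i} × Fin (d + 1)) H hU π i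
      (fun b => b.1.1) (fun b => b.1.2) hcι ?_ hF
    swap
    · intro J hJ
      obtain ⟨b, hb, b', hb', hbb⟩ := card_le_fib J hJ
      exact ⟨b, hb, b', hb', fun h => hbb (Subtype.ext h)⟩
    have hu1 : u ≤ ∏ b : {j : Fin (K + 1) // j ≠ i} × Fin (d + 1),
        (av fun v : V => ind (π v = b.1.1)) := by
      have : u = ∏ b : {j : Fin (K + 1) // j ≠ i} × Fin (d + 1),
          (1 / (2 * ((K + 1 : ℕ) : ℝ))) := by
        rw [prod_const, card_univ, hcβ]
      rw [this]
      exact prod_le_prod (fun b _ => by positivity) (fun b _ => hπ _)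
    have hN1 : (Fintype.card (Finset (Fin (d + 2) ⊕ ({j : Fin (K + 1) // j ≠ i} × Fin (d + 1))) ×
        (Fin (d + 2) ⊕ ({j : Fin (K + 1) // j ≠ i} × Fin (d + 1))) ×
        (Fin (d + 2) ⊕ ({j : Fin (K + 1) // j ≠ i} × Fin (d + 1)))) : ℝ) = N := by
      rw [Fintype.card_prod, Fintype.card_prod, Fintype.card_finset, hcι]
      push_cast
      rfl
    have hN2 : (Fintype.card (Finset ({j : Fin (K + 1) // j ≠ i} × Fin (d + 1)) ×
        ({j : Fin (K + 1) // j ≠ i} × Fin (d + 1)) ×
        ({j : Fin (K + 1) // j ≠ i} × Fin (d + 1))) : ℝ) ≤ N := by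
      rw [Fintype.card_prod, Fintype.card_prod, Fintype.card_finset, hcβ]
      have hnm : n ≤ m := by
        rw [hn, hm]
        nlinarith
      have h1 : 2 ^ n * (n * n) ≤ 2 ^ m * (m * m) :=
        Nat.mul_le_mul (Nat.pow_le_pow_right (by norm_num) hnm) (Nat.mul_le_mul hnm hnm)
      have h2 : ((2 ^ n * (n * n) : ℕ) : ℝ) ≤ ((2 ^ m * (m * m) : ℕ) : ℝ) := by exact_mod_cast h1
      refine h2.trans (le_of_eq ?_)
      rw [hN]
      push_cast
      rfl
    rw [hN1, hcβ] at h
    have h3 : eini d H π i * u ≤ eini d H π i * ∏ b : {j : Fin (K + 1) // j ≠ i} × Fin (d + 1),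
        (av fun v : V => ind (π v = b.1.1)) := mul_le_mul_of_nonneg_left hu1 e0
    have h4 : (Fintype.card (Finset ({j : Fin (K + 1) // j ≠ i} × Fin (d + 1)) ×
        ({j : Fin (K + 1) // j ≠ i} × Fin (d + 1)) ×
        ({j : Fin (K + 1) // j ≠ i} × Fin (d + 1))) : ℝ) * lsi d H π ≤ u / 4 := by
      calc _ ≤ N * lsi d H π := mul_le_mul_of_nonneg_right hN2 hls0
        _ ≤ N * (u / (4 * ((K + 1 : ℕ) : ℝ) * N)) := mul_le_mul_of_nonneg_left hls hN0.le
        _ = u / 4 / ((K + 1 : ℕ) : ℝ) := by field_simp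
        _ ≤ u / 4 / 1 := by
          apply div_le_div_of_nonneg_left (by positivity) (by norm_num)
          push_cast
          have : (0 : ℝ) ≤ K := Nat.cast_nonneg K
          linarith
        _ = u / 4 := by ring
    have h5 := mul_le_mul_of_nonneg_left h4 e0
    have h6 := mul_le_mul_of_nonneg_left hV2 e0
    linarith
  have hsum : u / 2 * ∑ i, eini d H π i ≤ ((K + 1 : ℕ) : ℝ) * (N * lsi d H π) := by
    rw [mul_sum]
    refine (sum_le_sum fun i _ => key i).trans (le_of_eq ?_)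
    rw [sum_const, card_univ, Fintype.card_fin, nsmul_eq_mul]
  have h6 := mul_le_mul_of_nonneg_left (ein_le d (K + 1) H π) (show (0 : ℝ) ≤ u / 2 by positivity)
  have h7 : u / 2 * ein d H π ≤ (((K + 1 : ℕ) : ℝ) * N) * lsi d H π := by linarith
  have h9 : 0 ≤ ein d H π := av_nonneg fun _ => ind_nonneg _
  have h8 : u / (4 * ((K + 1 : ℕ) : ℝ) * N) * ein d H π =
      (u / 2 * ein d H π) / 2 / (((K + 1 : ℕ) : ℝ) * N) := by
    field_simp
    ring
  rw [h8, div_le_iff₀ (by positivity)]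
  have h10 : 0 ≤ u / 2 * ein d H π := by positivity
  linarith

end Pool.Agent.N252.NT.XDF
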